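import Pool.Agent.Helper27.BI.S5.St5
import Pool.Agent.Helper27.BI.GBasic
import Pool.Agent.Helper18.BI.M_A0
import Pool.Agent.Helper18.BI.M_A1

/-!
# Project BI, stage 5 (S5), module GH: gluing an embedding of the model to the identity
-/

set_option autoImplicit false

open scoped Manifold ContDiff Topology ComplexConjugate
open Set Filter Pool.Agent.Helper65.Barb Pool.Agent.Helper18.BI
open Pool.Agent.Helper70.BI (I4 NearEq LD ld_iff ld_comp ld_congr)
open Pool.Agent.Helper27.BI (imp_image imp_off)

namespace Pool.Agent.Helper27.S5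

theorem m_GH : StGH := by
  intro G h D B hDc hB hG hld hinj hmaps hfix
  obtain ⟨Φ, hΦ1, hΦ2⟩ := m_A1 R4 R4 R4 I4 R4 G D hDc hG.1 hG.2
  have hΦc : ContinuousOn G D := by
    intro p hp
    exact ((hG.1 p hp).contMDiffAt.continuousAt).continuousWithinAt
  have hGDc : IsClosed (G '' D) := (hDc.image_of_continuousOn hΦc).isClosed
  have good : ∀ y ∈ (G '' (D ∩ B))ᶜ, ∀ p ∈ D, G p = y → p ∈ D \ B := by
    rintro y hy p hp rfl
    exact ⟨hp, fun hpB => hy ⟨p, ⟨hp, hpB⟩, rfl⟩⟩
  have hval : ∀ p ∈ D, imp G D h (G p) = G (h p) := fun p hp => imp_image hG.2 hp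
  constructor
  · intro y hy
    by_cases hyD : y ∈ G '' D
    · obtain ⟨p, hp, hpy⟩ := hyD
      have hgp := good y hy p hp hpy
      have hps : p ∈ Φ.source := hΦ1 hp
      have hΦp : Φ p = y := by rw [hΦ2 p hps, hpy]
      have hyt : y ∈ Φ.target := hΦp ▸ Φ.map_source hps
      have hsy : Φ.symm y = p := by
        rw [← hΦp]
        exact Φ.left_inv hps
      have hls : LD Φ.symm y := by
        refine PartialDiffeomorph.isLocalDiffeomorphAt _ _ _ Φ.symm ?_
        exact hyt
      have hle : LD (fun q => G (h q)) p :=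
        ld_comp (F := G) (m := h) (hld p hgp) (hG.1 _ (hmaps hgp))
      have hlc : LD (fun z => G (h (Φ.symm z))) y := by
        apply ld_comp (F := fun q => G (h q)) (m := Φ.symm) hls
        rw [hsy]
        exact hle
      refine ld_congr ?_ hlc
      have c1 : ContinuousAt Φ.symm y := hls.contMDiffAt.continuousAt
      have c2 : ∀ᶠ z in 𝓝 y, Φ.symm z ∉ D → h (Φ.symm z) = Φ.symm z := by
        have c3 : ∀ᶠ q in 𝓝 (Φ.symm y), q ∉ D → h q = q := by
          rw [hsy]
          exact hfix p hgp
        exact c1 c3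
      filter_upwards [c2, Φ.open_target.mem_nhds hyt] with z hz1 hz2
      have hz3 : Φ.symm z ∈ Φ.source := Φ.map_target hz2
      have hz4 : G (Φ.symm z) = z := by
        rw [← hΦ2 _ hz3]
        exact Φ.right_inv hz2
      by_cases hzD : Φ.symm z ∈ D
      · have h5 : imp G D h (G (Φ.symm z)) = G (h (Φ.symm z)) := hval _ hzD
        rw [hz4] at h5
        exact h5.symm
      · rw [hz1 hzD, hz4]
        symm
        apply imp_off
        rintro ⟨r, hr, hrz⟩
        have hr1 : r ∈ Φ.source := hΦ1 hr
        have h6 : Φ r = z := by rw [hΦ2 r hr1, hrz]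
        have h7 : Φ.symm z = r := by rw [← h6]; exact Φ.left_inv hr1
        rw [h7] at hzD
        exact hzD hr
    · have hid : LD (fun z : R4 => z) y := by
        rw [ld_iff]
        refine ⟨Eventually.of_forall fun q => contDiffAt_id, ?_⟩
        have : fderiv ℝ (fun z : R4 => z) y = ContinuousLinearMap.id ℝ R4 := fderiv_id
        rw [this]
        exact fun v w h => h
      refine ld_congr ?_ hid
      filter_upwards [hGDc.isOpen_compl.mem_nhds hyD] with z hz
      exact (imp_off hz).symm
  · intro y hy y' hy' he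
    by_cases hyD : y ∈ G '' D
    · obtain ⟨p, hp, hpy⟩ := hyD
      have hgp := good y hy p hp hpy
      by_cases hyD' : y' ∈ G '' D
      · obtain ⟨p', hp', hpy'⟩ := hyD'
        have hgp' := good y' hy' p' hp' hpy'
        rw [← hpy, ← hpy', hval p hp, hval p' hp'] at he
        have h1 := hG.2 (hmaps hgp) (hmaps hgp') he
        rw [← hpy, ← hpy', hinj hgp hgp' h1]
      · rw [imp_off hyD', ← hpy, hval p hp] at he
        exact absurd ⟨_, hmaps hgp, he⟩ hyD'
    · by_cases hyD' : y' ∈ G '' D
      · obtain ⟨p', hp', hpy'⟩ := hyD'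
        have hgp' := good y' hy' p' hp' hpy'
        rw [imp_off hyD, ← hpy', hval p' hp'] at he
        exact absurd ⟨_, hmaps hgp', he.symm⟩ hyD
      · rwa [imp_off hyD, imp_off hyD'] at he

end Pool.Agent.Helper27.S5
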